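import Mathlib

open ComplexConjugate

namespace Pool.Agent.Results.MP_1c9ae4_co.LocalObstruction

/-- maximum of a function on pairs of distinct points -/
theorem exists_max_pair {X Γ : Type*} [LinearOrder Γ] (T : Finset X)
    (f : X → X → Γ) (R : X → X → Prop) (hR : ∃ p ∈ T, ∃ q ∈ T, p ≠ q ∧ R p q) :
    ∃ p ∈ T, ∃ q ∈ T, p ≠ q ∧ R p q ∧ ∀ a ∈ T, ∀ b ∈ T, a ≠ b → R a b → f a b ≤ f p q := by
  classical
  obtain ⟨p0, hp0, q0, hq0, hne, hr⟩ := hR
  let U := ((T ×ˢ T).filter fun z => z.1 ≠ z.2 ∧ R z.1 z.2)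
  have hU : U.Nonempty := ⟨(p0, q0), by simp [U, hp0, hq0, hne, hr]⟩
  obtain ⟨z, hz, hmax⟩ := U.exists_max_image (fun z => f z.1 z.2) hU
  simp only [U, Finset.mem_filter, Finset.mem_product] at hz
  refine ⟨z.1, hz.1.1, z.2, hz.1.2, hz.2.1, hz.2.2, ?_⟩
  intro a ha b hb hab hr'
  exact hmax (a, b) (by simp [U, ha, hb, hab, hr'])

section field

variable {L : Type*} [Field L] (σ : L →+* L) (V : ValuationSubring L)

/-- the case where no element of the valuation ring has trace one -/
theorem case_trace (hV : ∀ x ∈ V, x + σ x ≠ 1) (T : Finset L) (hT : ∃ p ∈ T, ∃ q ∈ T, p ≠ q) :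
    ∃ p ∈ T, ∃ q ∈ T, p ≠ q ∧ ∀ a ∈ T, (a - p) * σ (a - p) ≠ (a - q) * σ (a - q) := by
  classical
  obtain ⟨p, hp, q, hq, hne, -, hmax⟩ := exists_max_pair T
    (fun a b => V.valuation (a - b)) (fun _ _ => True)
    (by obtain ⟨p, hp, q, hq, hne⟩ := hT; exact ⟨p, hp, q, hq, hne, trivial⟩)
  refine ⟨p, hp, q, hq, hne, ?_⟩
  intro a ha h
  have hu : q - p ≠ 0 := sub_ne_zero.2 hne.symm
  have hsu : σ (q - p) ≠ 0 := (map_ne_zero σ).2 hu
  set x := (a - p) / (q - p) with hx
  have hax : a - p = x * (q - p) := by rw [hx, div_mul_cancel₀ _ hu]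
  have haq : a - q = (x - 1) * (q - p) := by rw [sub_mul, ← hax]; ring
  have hxV : x ∈ V := by
    rw [← V.valuation_le_one_iff, hx, map_div₀]
    have h0 : V.valuation (q - p) ≠ 0 := (Valuation.ne_zero_iff _).2 hu
    rw [div_le_one₀ (zero_lt_iff.2 h0)]
    by_cases hap : a = p
    · subst hap; simp
    · have := hmax a ha p hp hap trivial
      rwa [Valuation.map_sub_swap V.valuation p q] at this
  apply hV x hxV
  rw [hax, haq, map_mul, map_mul, map_sub σ x 1, map_one] at h
  have h2 : (x * σ x - (x - 1) * (σ x - 1)) * ((q - p) * σ (q - p)) = 0 := by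
    linear_combination h
  have h3 := (mul_eq_zero.1 h2).resolve_right (mul_ne_zero hu hsu)
  linear_combination h3

/-- the case of a residue field with two elements -/
theorem case_two (hV : Nat.card (IsLocalRing.ResidueField V) = 2) (T : Finset L)
    (hT : ∃ p ∈ T, ∃ q ∈ T, p ≠ q) :
    ∃ p ∈ T, ∃ q ∈ T, p ≠ q ∧ ∀ a ∈ T, (a - p) * σ (a - p) ≠ (a - q) * σ (a - q) := by
  classical
  obtain ⟨p0, hp0, q0, hq0, hne0, -, hmax⟩ := exists_max_pair T
    (fun a b => V.valuation (a - b)) (fun _ _ => True)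
    (by obtain ⟨p, hp, q, hq, hne⟩ := hT; exact ⟨p, hp, q, hq, hne, trivial⟩)
  set M := V.valuation (p0 - q0) with hM
  have hM0 : 0 < M := zero_lt_iff.2 ((Valuation.ne_zero_iff _).2 (sub_ne_zero.2 hne0))
  have hle : ∀ a ∈ T, ∀ b ∈ T, V.valuation (a - b) ≤ M := by
    intro a ha b hb
    by_cases hab : a = b
    · subst hab; simp
    · exact hmax a ha b hb hab trivial
  obtain ⟨p, hp, q, hq, hne, hpq, hmin⟩ := exists_max_pair T
    (fun a b => OrderDual.toDual (V.valuation (σ (a - b)))) (fun a b => V.valuation (a - b) = M)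
    ⟨p0, hp0, q0, hq0, hne0, rfl⟩
  -- two elements in the residue field
  have key : ∀ x ∈ V, V.valuation x < 1 ∨ V.valuation (x - 1) < 1 := by
    intro x hx
    have hfin : Finite (IsLocalRing.ResidueField V) := Nat.finite_of_card_ne_zero (by rw [hV]; norm_num)
    have h01 : (0 : IsLocalRing.ResidueField V) ≠ 1 := zero_ne_one
    have : ∀ y : IsLocalRing.ResidueField V, y = 0 ∨ y = 1 := by
      intro y
      by_contra hcon
      push Not at hcon
      have := Fintype.ofFinite (IsLocalRing.ResidueField V)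
      have h3 : ({0, 1, y} : Finset (IsLocalRing.ResidueField V)).card = 3 := by
        rw [Finset.card_insert_of_notMem, Finset.card_insert_of_notMem, Finset.card_singleton]
        · simp [Ne.symm hcon.2]
        · simp [Ne.symm hcon.1]
      have := Finset.card_le_univ ({0, 1, y} : Finset (IsLocalRing.ResidueField V))
      rw [h3, ← Nat.card_eq_fintype_card, hV] at this
      omega
    rcases this (IsLocalRing.residue V ⟨x, hx⟩) with h | h
    · left
      rw [IsLocalRing.residue_eq_zero_iff] at h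
      exact (V.valuation_lt_one_iff ⟨x, hx⟩).1 h
    · right
      have h' : IsLocalRing.residue V (⟨x, hx⟩ - 1) = 0 := by
        rw [map_sub, h, map_one, sub_self]
      rw [IsLocalRing.residue_eq_zero_iff] at h'
      exact (V.valuation_lt_one_iff (⟨x, hx⟩ - 1)).1 h'
  -- main step
  have step : ∀ p ∈ T, ∀ q ∈ T, p ≠ q → V.valuation (p - q) = M →
      (∀ a ∈ T, ∀ b ∈ T, a ≠ b → V.valuation (a - b) = M →
        V.valuation (σ (p - q)) ≤ V.valuation (σ (a - b))) →
      ∀ a ∈ T, V.valuation (a - p) < M → (a - p) * σ (a - p) ≠ (a - q) * σ (a - q) := by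
    intro p hp q hq hne hpq hmin a ha hlt h
    have hap : a ≠ p := by
      rintro rfl
      rw [sub_self, zero_mul] at h
      rcases mul_eq_zero.1 h.symm with h | h
      · exact hne (sub_eq_zero.1 h)
      · exact hne (sub_eq_zero.1 ((map_eq_zero σ).1 h))
    have haqM : V.valuation (a - q) = M := by
      have : a - q = (a - p) + (p - q) := by ring
      rw [this, Valuation.map_add_eq_of_lt_right _ (by rw [hpq]; exact hlt), hpq]
    have hsap : 0 < V.valuation (σ (a - p)) :=
      zero_lt_iff.2 ((Valuation.ne_zero_iff _).2 ((map_ne_zero σ).2 (sub_ne_zero.2 hap)))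
    have hv := congrArg V.valuation h
    rw [map_mul, map_mul, haqM] at hv
    have h1 : V.valuation (σ (a - q)) < V.valuation (σ (a - p)) := by
      by_contra hcon
      push Not at hcon
      have : V.valuation (a - p) * V.valuation (σ (a - p)) < M * V.valuation (σ (a - q)) :=
        lt_of_lt_of_le (mul_lt_mul_of_pos_right hlt hsap) (mul_le_mul_right hcon M)
      exact absurd hv this.ne
    have haq : a ≠ q := by
      rintro rfl
      rw [sub_self, map_zero] at haqM
      exact hM0.ne haqM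
    have h2 := hmin a ha q hq haq haqM
    have h3 : V.valuation (σ (p - q)) = V.valuation (σ (a - p)) := by
      have : σ (p - q) = σ (a - q) - σ (a - p) := by rw [← map_sub]; congr 1; ring
      rw [this, Valuation.map_sub_eq_of_lt_right _ h1]
    rw [h3] at h2
    exact absurd h1 (not_lt.2 h2)
  refine ⟨p, hp, q, hq, hne, ?_⟩
  intro a ha
  have hu : q - p ≠ 0 := sub_ne_zero.2 hne.symm
  have hqp : V.valuation (q - p) = M := by rw [Valuation.map_sub_swap, hpq]
  have hxV : (a - p) / (q - p) ∈ V := by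
    rw [← V.valuation_le_one_iff, map_div₀, hqp, div_le_one₀ hM0]
    exact hle a ha p hp
  rcases key _ hxV with h | h
  · rw [map_div₀, hqp, div_lt_one₀ hM0] at h
    refine step p hp q hq hne hpq ?_ a ha h
    intro b hb c hc hbc hv
    exact hmin b hb c hc hbc hv
  · have hx1 : (a - p) / (q - p) - 1 = (a - q) / (q - p) := by
      field_simp; ring
    rw [hx1, map_div₀, hqp, div_lt_one₀ hM0] at h
    intro heq
    refine step q hq p hp hne.symm hqp ?_ a ha h heq.symm
    intro b hb c hc hbc hv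
    have := hmin b hb c hc hbc hv
    have e : σ (q - p) = - σ (p - q) := by rw [← map_neg]; congr 1; ring
    rw [e, Valuation.map_neg]
    exact this

end field

/-- the real case: the valuation of two is not a square -/
theorem case_real {K Γ₀ : Type*} [Field K] [CharZero K] [LinearOrderedCommGroupWithZero Γ₀]
    (v : Valuation K Γ₀) (hv : ∀ x : K, v x ^ 2 ≠ v 2)
    (hN : ∀ x y : K, x ^ 2 + y ^ 2 = 0 → x = 0 ∧ y = 0) (T : Finset (K × K))
    (hT : ∃ p ∈ T, ∃ q ∈ T, p ≠ q) :
    ∃ p ∈ T, ∃ q ∈ T, p ≠ q ∧ ∀ a ∈ T,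
      (a.1 - p.1) ^ 2 + (a.2 - p.2) ^ 2 ≠ (a.1 - q.1) ^ 2 + (a.2 - q.2) ^ 2 := by
  classical
  obtain ⟨p, hp, q, hq, hne, -, hmax⟩ := exists_max_pair T
    (fun a b => v ((a.1 - b.1) ^ 2 + (a.2 - b.2) ^ 2)) (fun _ _ => True)
    (by obtain ⟨p, hp, q, hq, hne⟩ := hT; exact ⟨p, hp, q, hq, hne, trivial⟩)
  refine ⟨p, hp, q, hq, hne, ?_⟩
  intro a ha h
  -- the valuation of two
  have h20 : v 2 ≠ 0 := (Valuation.ne_zero_iff _).2 two_ne_zero
  have h2le : v 2 ≤ 1 := by
    have : v (1 + 1) ≤ max (v 1) (v 1) := Valuation.map_add v 1 1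
    rw [max_self, map_one] at this
    norm_num at this
    exact this
  have h2lt : v 2 < 1 := by
    refine lt_of_le_of_ne h2le ?_
    intro h1
    exact hv 1 (by rw [map_one, one_pow, h1])
  have h4lt : v 2 * v 2 < v 2 := by
    calc v 2 * v 2 < 1 * v 2 := mul_lt_mul_of_pos_right h2lt (zero_lt_iff.2 h20)
      _ = v 2 := one_mul _
  set n := (p.1 - q.1) ^ 2 + (p.2 - q.2) ^ 2 with hn
  have hn0 : n ≠ 0 := by
    intro h0
    obtain ⟨h1, h2⟩ := hN _ _ h0
    exact hne (Prod.ext (sub_eq_zero.1 h1) (sub_eq_zero.1 h2))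
  set m := (a.2 - p.2) * (q.1 - p.1) - (a.1 - p.1) * (q.2 - p.2) with hm
  -- the relation
  have hdot : 2 * ((a.1 - p.1) * (q.1 - p.1) + (a.2 - p.2) * (q.2 - p.2)) = n := by
    rw [hn]; linear_combination h
  have hrel : 4 * (n * ((a.1 - p.1) ^ 2 + (a.2 - p.2) ^ 2)) = n ^ 2 + (2 * m) ^ 2 := by
    have h1 : 4 * (n * ((a.1 - p.1) ^ 2 + (a.2 - p.2) ^ 2)) =
        (2 * ((a.1 - p.1) * (q.1 - p.1) + (a.2 - p.2) * (q.2 - p.2))) ^ 2 + (2 * m) ^ 2 := by
      rw [hn, hm]; ring
    rw [h1, hdot]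
  set c := 2 * m / n with hc
  have hcn : 2 * m = c * n := by rw [hc, div_mul_cancel₀ _ hn0]
  have hrel2 : 4 * ((a.1 - p.1) ^ 2 + (a.2 - p.2) ^ 2) = (1 + c ^ 2) * n := by
    apply mul_left_cancel₀ hn0
    rw [hcn] at hrel
    linear_combination hrel
  have hvle : v ((a.1 - p.1) ^ 2 + (a.2 - p.2) ^ 2) ≤ v n := by
    by_cases hap : a = p
    · subst hap; simp
    · exact hmax a ha p hp hap trivial
  have hvn : 0 < v n := zero_lt_iff.2 ((Valuation.ne_zero_iff _).2 hn0)
  have hc1 : v (1 + c ^ 2) ≤ v 2 * v 2 := by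
    have h1 := congrArg v hrel2
    rw [map_mul, map_mul, show (4 : K) = 2 * 2 by norm_num, map_mul] at h1
    by_contra hcon
    push Not at hcon
    have : v 2 * v 2 * v ((a.1 - p.1) ^ 2 + (a.2 - p.2) ^ 2) < v (1 + c ^ 2) * v n := by
      calc v 2 * v 2 * v ((a.1 - p.1) ^ 2 + (a.2 - p.2) ^ 2) ≤ v 2 * v 2 * v n :=
            mul_le_mul_right hvle _
        _ < v (1 + c ^ 2) * v n := mul_lt_mul_of_pos_right hcon hvn
    exact absurd h1 this.ne
  have hc2 : v (1 + c ^ 2) < v 2 := lt_of_le_of_lt hc1 h4lt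
  have hc3 : v (1 + c ^ 2) < 1 := lt_of_lt_of_le hc2 h2le
  have hvc : v c = 1 := by
    rcases lt_trichotomy (v c) 1 with hlt | heq | hgt
    · have : v (1 + c ^ 2) = 1 := by
        rw [Valuation.map_add_eq_of_lt_left, map_one]
        rw [map_one, map_pow]
        exact pow_lt_one₀ zero_le hlt two_ne_zero
      exact absurd this hc3.ne
    · exact heq
    · have : v (1 + c ^ 2) = v (c ^ 2) := by
        rw [Valuation.map_add_eq_of_lt_right]
        rw [map_one, map_pow]
        exact one_lt_pow₀ hgt two_ne_zero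
      rw [this, map_pow] at hc3
      exact absurd hc3 (not_lt.2 (one_le_pow₀ hgt.le))
  have hfin : v ((1 + c) ^ 2) = v 2 := by
    have : (1 + c) ^ 2 = (1 + c ^ 2) + 2 * c := by ring
    rw [this]
    have h2c : v (2 * c) = v 2 := by rw [map_mul, hvc, mul_one]
    rw [Valuation.map_add_eq_of_lt_right _ (by rw [h2c]; exact hc2), h2c]
  rw [map_pow] at hfin
  exact hv _ hfin

set_option linter.deprecated false in
/-- a number field of odd degree has a valuation for which the value of two is not a square -/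
theorem exists_valuation (K : Type*) [Field K] [NumberField K] (hodd : Odd (Module.finrank ℚ K)) :
    ∃ v : Valuation K (WithZero (Multiplicative ℤ)), ∀ x : K, v x ^ 2 ≠ v 2 := by
  classical
  set p : Ideal ℤ := Ideal.span {2} with hp
  have hp0 : p ≠ ⊥ := by rw [hp, Ne, Ideal.span_singleton_eq_bot]; norm_num
  have hpm : p.IsMaximal := by
    rw [hp]
    exact PrincipalIdealRing.isMaximal_of_irreducible
      (Prime.irreducible Int.prime_two)
  have hsum := Ideal.sum_ramification_inertia (S := NumberField.RingOfIntegers K) ℚ K (p := p) hp0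
  have hex : ∃ P ∈ IsDedekindDomain.primesOverFinset p (NumberField.RingOfIntegers K),
      ¬ Even (Ideal.ramificationIdx' p P * Ideal.inertiaDeg' p P) := by
    by_contra hcon
    push Not at hcon
    have := Finset.even_sum _ hcon
    rw [hsum] at this
    exact (Nat.not_even_iff_odd.2 hodd) this
  obtain ⟨P, hP, hPo⟩ := hex
  obtain ⟨hP1, hP2⟩ := (IsDedekindDomain.mem_primesOverFinset_iff hp0 _).1 hP
  have hPe : ¬ Even (Ideal.ramificationIdx' p P) := fun h => hPo (h.mul_right _)
  have hmap : Ideal.map (algebraMap ℤ (NumberField.RingOfIntegers K)) p =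
      Ideal.span {(2 : NumberField.RingOfIntegers K)} := by
    rw [hp, Ideal.map_span, Set.image_singleton, map_ofNat]
  have hmap0 : Ideal.map (algebraMap ℤ (NumberField.RingOfIntegers K)) p ≠ ⊥ := by
    rw [hmap, Ne, Ideal.span_singleton_eq_bot]; exact two_ne_zero
  rw [Ideal.IsDedekindDomain.ramificationIdx'_eq_multiplicity hmap0 hP1, hmap] at hPe
  have hPbot : P ≠ ⊥ := by
    rintro rfl
    have h1 : Ideal.map (algebraMap ℤ (NumberField.RingOfIntegers K)) p ≤ ⊥ :=
      Ideal.map_le_iff_le_comap.2 hP2.over.le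
    exact hmap0 (le_bot_iff.1 h1)
  let w : IsDedekindDomain.HeightOneSpectrum (NumberField.RingOfIntegers K) := ⟨P, hP1, hPbot⟩
  refine ⟨w.valuation K, fun x hx => ?_⟩
  have h2 : w.valuation K (2 : K) =
      WithZero.exp (-(multiplicity P (Ideal.span {(2 : NumberField.RingOfIntegers K)})) : ℤ) := by
    have : (2 : K) = algebraMap (NumberField.RingOfIntegers K) K 2 := by rw [map_ofNat]
    rw [this, w.valuation_of_algebraMap, w.intValuation_eq_exp_neg_multiplicity two_ne_zero]
  rw [h2] at hx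
  by_cases h0 : w.valuation K x = 0
  · rw [h0, zero_pow two_ne_zero] at hx
    exact WithZero.exp_ne_zero hx.symm
  · rw [← WithZero.exp_log h0, ← WithZero.exp_nsmul] at hx
    have := WithZero.exp_injective hx
    apply hPe
    rw [← Int.even_coe_nat, ← even_neg, ← this]
    simp

/-- **Result.** Local obstruction to finite sets in the plane all of whose perpendicular bisectors
meet the set: (1) over a conjugation-stable field `L` of complex numbers with a valuation ring
that has two residue classes or no element of trace one; (2) in particular over a real number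
field of odd degree. -/
theorem result :
    (∀ (L : Subfield ℂ) (_ : ∀ z ∈ L, conj z ∈ L) (V : ValuationSubring L),
      (Nat.card (IsLocalRing.ResidueField V) = 2 ∨ ∀ x ∈ V, (x : ℂ) + conj (x : ℂ) ≠ 1) →
      ∀ (α β : ℂ) (S : Finset ℂ), (∀ P ∈ S, ∃ x ∈ L, P = α + β * x) → 2 ≤ S.card →
        ∃ P ∈ S, ∃ Q ∈ S, P ≠ Q ∧ ∀ A ∈ S, dist A P ≠ dist A Q) ∧
    (∀ (K : Subfield ℝ) [NumberField K], Odd (Module.finrank ℚ K) →
      ∀ S : Finset ℂ, (∀ P ∈ S, P.re ∈ K ∧ P.im ∈ K) → 2 ≤ S.card →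
        ∃ P ∈ S, ∃ Q ∈ S, P ≠ Q ∧ ∀ A ∈ S, dist A P ≠ dist A Q) := by
  classical
  constructor
  · intro L hL V hV α β S hS hcard
    obtain ⟨P0, hP0, Q0, hQ0, hne⟩ := Finset.one_lt_card.1 (lt_of_lt_of_le one_lt_two hcard)
    let σ : L →+* L :=
      { toFun := fun x => ⟨conj (x : ℂ), hL x x.2⟩
        map_one' := by ext; simp
        map_mul' := by intro x y; ext; simp
        map_zero' := by ext; simp
        map_add' := by intro x y; ext; simp }
    have hσ : ∀ x : L, ((σ x : L) : ℂ) = conj (x : ℂ) := fun x => rfl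
    have hβ : β ≠ 0 := by
      rintro rfl
      obtain ⟨x, -, hx⟩ := hS P0 hP0
      obtain ⟨y, -, hy⟩ := hS Q0 hQ0
      apply hne
      rw [hx, hy, zero_mul, zero_mul]
    -- the coordinates
    have hc : ∀ P ∈ S, (P - α) / β ∈ L := by
      intro P hP
      obtain ⟨x, hx, hx'⟩ := hS P hP
      have : (P - α) / β = x := by rw [hx']; field_simp; ring
      rw [this]; exact hx
    let T : Finset L := S.attach.image fun P : {x // x ∈ S} => ⟨((P : ℂ) - α) / β, hc P P.2⟩
    have hmem : ∀ x ∈ T, α + β * (x : ℂ) ∈ S := by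
      intro x hx
      obtain ⟨P, -, rfl⟩ := Finset.mem_image.1 hx
      have : α + β * (((P : ℂ) - α) / β) = P := by field_simp; ring
      rw [this]; exact P.2
    have hmem' : ∀ P (hP : P ∈ S), (⟨(P - α) / β, hc P hP⟩ : L) ∈ T := fun P hP =>
      Finset.mem_image.2 ⟨⟨P, hP⟩, Finset.mem_attach _ _, rfl⟩
    have hT : ∃ p ∈ T, ∃ q ∈ T, p ≠ q := by
      refine ⟨_, hmem' P0 hP0, _, hmem' Q0 hQ0, ?_⟩
      intro h
      have h1 := congrArg (fun z : L => (z : ℂ)) h
      simp only at h1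
      rw [div_left_inj' hβ] at h1
      exact hne (sub_left_injective h1)
    have hmain : ∃ p ∈ T, ∃ q ∈ T, p ≠ q ∧ ∀ a ∈ T,
        (a - p) * σ (a - p) ≠ (a - q) * σ (a - q) := by
      rcases hV with hV | hV
      · exact case_two σ V hV T hT
      · refine case_trace σ V ?_ T hT
        intro x hx h
        apply hV x hx
        have h1 := congrArg (fun z : L => (z : ℂ)) h
        simpa [hσ] using h1
    obtain ⟨p, hp, q, hq, hpq, hne2⟩ := hmain
    refine ⟨_, hmem p hp, _, hmem q hq, ?_, ?_⟩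
    · intro h
      exact hpq (Subtype.ext (mul_left_cancel₀ hβ (add_left_cancel h)))
    · intro A hA hd
      apply hne2 _ (hmem' A hA)
      set a : L := ⟨(A - α) / β, hc A hA⟩ with ha
      have hAa : A = α + β * (a : ℂ) := by rw [ha]; simp only; field_simp; ring
      have hdist : ∀ x : L, dist A (α + β * (x : ℂ)) = ‖β‖ * ‖((a - x : L) : ℂ)‖ := by
        intro x
        rw [dist_eq_norm, ← norm_mul]
        congr 1
        rw [hAa]; push_cast; ring
      rw [hdist, hdist] at hd
      have hd' := mul_left_cancel₀ (norm_ne_zero_iff.2 hβ) hd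
      apply Subtype.ext
      have e : ∀ y : L, ((y * σ y : L) : ℂ) = ((‖(y : ℂ)‖ ^ 2 : ℝ) : ℂ) := by
        intro y
        rw [← Complex.normSq_eq_norm_sq, ← Complex.mul_conj]
        rfl
      rw [e, e, hd']
  · intro K _ hodd S hS hcard
    obtain ⟨P0, hP0, Q0, hQ0, hne⟩ := Finset.one_lt_card.1 (lt_of_lt_of_le one_lt_two hcard)
    obtain ⟨v, hv⟩ := exists_valuation K hodd
    let T : Finset (K × K) := S.attach.image fun P : {x // x ∈ S} =>
      (⟨(P : ℂ).re, (hS P P.2).1⟩, ⟨(P : ℂ).im, (hS P P.2).2⟩)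
    have hmem : ∀ x ∈ T, (⟨(x.1 : ℝ), (x.2 : ℝ)⟩ : ℂ) ∈ S := by
      intro x hx
      obtain ⟨P, -, rfl⟩ := Finset.mem_image.1 hx
      exact P.2
    have hmem' : ∀ P (hP : P ∈ S),
        ((⟨P.re, (hS P hP).1⟩, ⟨P.im, (hS P hP).2⟩) : K × K) ∈ T := fun P hP =>
      Finset.mem_image.2 ⟨⟨P, hP⟩, Finset.mem_attach _ _, rfl⟩
    have hT : ∃ p ∈ T, ∃ q ∈ T, p ≠ q := by
      refine ⟨_, hmem' P0 hP0, _, hmem' Q0 hQ0, ?_⟩
      intro h
      rw [Prod.mk.injEq, Subtype.mk.injEq, Subtype.mk.injEq] at h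
      exact hne (Complex.ext h.1 h.2)
    have hN : ∀ x y : K, x ^ 2 + y ^ 2 = 0 → x = 0 ∧ y = 0 := by
      intro x y h
      have h1 : (x : ℝ) ^ 2 + (y : ℝ) ^ 2 = 0 := by
        have := congrArg (fun z : K => (z : ℝ)) h
        simpa using this
      have h2 : (x : ℝ) = 0 := by nlinarith [sq_nonneg (x : ℝ), sq_nonneg (y : ℝ)]
      have h3 : (y : ℝ) = 0 := by nlinarith [sq_nonneg (x : ℝ), sq_nonneg (y : ℝ)]
      exact ⟨Subtype.ext h2, Subtype.ext h3⟩
    obtain ⟨p, hp, q, hq, hpq, hne2⟩ := case_real v hv hN T hT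
    refine ⟨_, hmem p hp, _, hmem q hq, ?_, ?_⟩
    · intro h
      rw [Complex.ext_iff] at h
      exact hpq (Prod.ext (Subtype.ext h.1) (Subtype.ext h.2))
    · intro A hA hd
      apply hne2 _ (hmem' A hA)
      apply Subtype.ext
      have e : ∀ x : K × K, dist A ⟨(x.1 : ℝ), (x.2 : ℝ)⟩ ^ 2 =
          (A.re - x.1) ^ 2 + (A.im - x.2) ^ 2 := by
        intro x
        rw [Complex.dist_eq_re_im, Real.sq_sqrt (by positivity)]
      have h1 := e p
      rw [hd, e q] at h1
      simpa using h1.symm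

end Pool.Agent.Results.MP_1c9ae4_co.LocalObstruction
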